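import Mathlib

set_option autoImplicit false

namespace Pool.Agent.Helper646.Vdc

open MeasureTheory intervalIntegral Set

/-- First derivative test with an increasing positive phase derivative. -/
theorem vdc_one {g : ℝ → ℂ} {w w' : ℝ → ℝ} {a b μ : ℝ} (hab : a ≤ b) (hμ : 0 < μ)
    (hg : ∀ t, HasDerivAt g (Complex.I * (w t : ℂ) * g t) t)
    (hgn : ∀ t, ‖g t‖ = 1)
    (hw : ∀ t, HasDerivAt w (w' t) t)
    (hw'c : Continuous w')
    (hw'0 : ∀ t ∈ Icc a b, 0 ≤ w' t)
    (hlow : μ ≤ w a) :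
    ‖∫ t in a..b, g t‖ ≤ 2 / μ := by
  have hgc : Continuous g := continuous_iff_continuousAt.2 fun t => (hg t).continuousAt
  have hwc : Continuous w := continuous_iff_continuousAt.2 fun t => (hw t).continuousAt
  have hmono : MonotoneOn w (Icc a b) := by
    apply monotoneOn_of_deriv_nonneg (convex_Icc a b) hwc.continuousOn
    · intro t _
      exact (hw t).differentiableAt.differentiableWithinAt
    · intro t ht
      rw [(hw t).deriv]
      exact hw'0 t (interior_subset ht)
  have hpos : ∀ t ∈ Icc a b, μ ≤ w t := fun t ht =>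
    hlow.trans (hmono (left_mem_Icc.2 hab) ht ht.1)
  have hpos' : ∀ t ∈ uIcc a b, μ ≤ w t := by
    intro t ht
    rw [uIcc_of_le hab] at ht
    exact hpos t ht
  -- derivative of g / (I w)
  have hG : ∀ t ∈ uIcc a b, HasDerivAt (fun s => g s / (Complex.I * (w s : ℂ)))
      (g t - g t * (w' t : ℂ) / (Complex.I * (w t : ℂ) ^ 2)) t := by
    intro t ht
    have hwt : 0 < w t := lt_of_lt_of_le hμ (hpos' t ht)
    have hwt' : (w t : ℂ) ≠ 0 := by exact_mod_cast hwt.ne'
    have h1 : HasDerivAt (fun s => Complex.I * (w s : ℂ)) (Complex.I * (w' t : ℂ)) t :=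
      ((hw t).ofReal_comp).const_mul Complex.I
    have h2 := (hg t).div h1 (mul_ne_zero Complex.I_ne_zero hwt')
    refine h2.congr_deriv ?_
    have hI : Complex.I ≠ 0 := Complex.I_ne_zero
    field_simp
  have hwne : ∀ t ∈ uIcc a b, (w t) ≠ 0 := fun t ht => (lt_of_lt_of_le hμ (hpos' t ht)).ne'
  have hcont1 : ContinuousOn (fun t => g t * (w' t : ℂ) / (Complex.I * (w t : ℂ) ^ 2)) (uIcc a b) := by
    apply ContinuousOn.div
    · exact (hgc.mul (Complex.continuous_ofReal.comp hw'c)).continuousOn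
    · exact (continuous_const.mul ((Complex.continuous_ofReal.comp hwc).pow 2)).continuousOn
    · intro t ht
      have : (w t : ℂ) ≠ 0 := by exact_mod_cast hwne t ht
      exact mul_ne_zero Complex.I_ne_zero (pow_ne_zero 2 this)
  have hint1 : IntervalIntegrable (fun t => g t * (w' t : ℂ) / (Complex.I * (w t : ℂ) ^ 2)) volume a b :=
    hcont1.intervalIntegrable
  have hintg : IntervalIntegrable g volume a b := hgc.intervalIntegrable a b
  have hFTC := integral_eq_sub_of_hasDerivAt hG (hintg.sub hint1)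
  rw [intervalIntegral.integral_sub hintg hint1] at hFTC
  have hcont2 : ContinuousOn (fun t => w' t / (w t) ^ 2) (uIcc a b) := by
    apply ContinuousOn.div hw'c.continuousOn (hwc.pow 2).continuousOn
    intro t ht
    exact pow_ne_zero 2 (hwne t ht)
  have hFTC2 : ∫ t in a..b, w' t / (w t) ^ 2 = - (w b)⁻¹ - (- (w a)⁻¹) := by
    apply integral_eq_sub_of_hasDerivAt (f := fun t => - (w t)⁻¹)
    · intro t ht
      have := ((hw t).inv (hwne t ht)).neg
      refine this.congr_deriv ?_
      ring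
    · exact hcont2.intervalIntegrable
  have hbound : ‖∫ t in a..b, g t * (w' t : ℂ) / (Complex.I * (w t : ℂ) ^ 2)‖
      ≤ ∫ t in a..b, w' t / (w t) ^ 2 := by
    apply intervalIntegral.norm_integral_le_of_norm_le hab
    · filter_upwards with t ht
      have ht' : t ∈ Icc a b := ⟨ht.1.le, ht.2⟩
      rw [norm_div, norm_mul, norm_mul, hgn, norm_pow, Complex.norm_I, Complex.norm_real,
        Complex.norm_real, Real.norm_eq_abs, Real.norm_eq_abs, abs_of_nonneg (hw'0 t ht'), sq_abs]
      simp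
    · exact hcont2.intervalIntegrable
  have hwa : 0 < w a := lt_of_lt_of_le hμ hlow
  have hwb : 0 < w b := lt_of_lt_of_le hμ (hpos b (right_mem_Icc.2 hab))
  have hGn : ∀ t, 0 < w t → ‖g t / (Complex.I * (w t : ℂ))‖ = (w t)⁻¹ := by
    intro t ht
    rw [norm_div, norm_mul, hgn, Complex.norm_I, Complex.norm_real, Real.norm_eq_abs,
      abs_of_pos ht]
    simp
  have hfin : ∫ t in a..b, g t = (g b / (Complex.I * (w b : ℂ)) - g a / (Complex.I * (w a : ℂ)))
      + ∫ t in a..b, g t * (w' t : ℂ) / (Complex.I * (w t : ℂ) ^ 2) := by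
    rw [← hFTC]; ring
  rw [hfin]
  calc _ ≤ ‖g b / (Complex.I * (w b : ℂ)) - g a / (Complex.I * (w a : ℂ))‖
        + ‖∫ t in a..b, g t * (w' t : ℂ) / (Complex.I * (w t : ℂ) ^ 2)‖ := norm_add_le _ _
    _ ≤ ((w b)⁻¹ + (w a)⁻¹) + (- (w b)⁻¹ - (- (w a)⁻¹)) := by
        gcongr
        · calc _ ≤ ‖g b / (Complex.I * (w b : ℂ))‖ + ‖g a / (Complex.I * (w a : ℂ))‖ := norm_sub_le _ _
            _ = _ := by rw [hGn b hwb, hGn a hwa]
        · rw [← hFTC2]; exact hbound
    _ = 2 / w a := by ring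
    _ ≤ 2 / μ := by gcongr

/-- The mirrored version: negative phase derivative. -/
theorem vdc_one_neg {g : ℝ → ℂ} {w w' : ℝ → ℝ} {a b μ : ℝ} (hab : a ≤ b) (hμ : 0 < μ)
    (hg : ∀ t, HasDerivAt g (Complex.I * (w t : ℂ) * g t) t)
    (hgn : ∀ t, ‖g t‖ = 1)
    (hw : ∀ t, HasDerivAt w (w' t) t)
    (hw'c : Continuous w')
    (hw'0 : ∀ t ∈ Icc a b, 0 ≤ w' t)
    (hlow : w b ≤ -μ) :
    ‖∫ t in a..b, g t‖ ≤ 2 / μ := by
  have key : ∫ t in a..b, g t = ∫ t in (-b)..(-a), g (-t) := by
    rw [intervalIntegral.integral_comp_neg]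
    simp
  rw [key]
  apply vdc_one (g := fun t => g (-t)) (w := fun t => - w (-t)) (w' := fun t => w' (-t))
    (by linarith) hμ
  · intro t
    have h1 : HasDerivAt (fun s : ℝ => -s) (-1) t := hasDerivAt_neg t
    have h2 := (hg (-t)).scomp t h1
    refine h2.congr_deriv ?_
    simp
  · intro t; exact hgn _
  · intro t
    have h1 : HasDerivAt (fun s : ℝ => -s) (-1) t := hasDerivAt_neg t
    have h2 := ((hw (-t)).comp t h1).neg
    refine h2.congr_deriv ?_
    ring
  · exact hw'c.comp continuous_neg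
  · intro t ht
    exact hw'0 _ ⟨by linarith [ht.2], by linarith [ht.1]⟩
  · simp only [neg_neg]; linarith

theorem norm_int_le {g : ℝ → ℂ} {a b : ℝ} (hab : a ≤ b) (hgn : ∀ t, ‖g t‖ = 1) :
    ‖∫ t in a..b, g t‖ ≤ b - a := by
  have := intervalIntegral.norm_integral_le_of_norm_le_const (a := a) (b := b) (f := g) (C := 1)
    (fun t _ => (hgn t).le)
  rw [abs_of_nonneg (by linarith)] at this
  linarith

theorem vdc_half_pos {g : ℝ → ℂ} {w w' : ℝ → ℝ} {a b l d : ℝ} (hab : a ≤ b) (hl : 0 < l)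
    (hd : 0 < d)
    (hg : ∀ t, HasDerivAt g (Complex.I * (w t : ℂ) * g t) t)
    (hgn : ∀ t, ‖g t‖ = 1)
    (hw : ∀ t, HasDerivAt w (w' t) t)
    (hw'c : Continuous w')
    (hw'0 : ∀ t ∈ Icc a b, l ≤ w' t)
    (hlow : 0 ≤ w a) :
    ‖∫ t in a..b, g t‖ ≤ d + 2 / (l * d) := by
  have hgc : Continuous g := continuous_iff_continuousAt.2 fun t => (hg t).continuousAt
  have hwc : Continuous w := continuous_iff_continuousAt.2 fun t => (hw t).continuousAt
  have h0 : 0 < 2 / (l * d) := by positivity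
  rcases le_or_gt b (a + d) with h | h
  · have := norm_int_le hab hgn
    linarith
  · have hsplit : ∫ t in a..b, g t = (∫ t in a..(a + d), g t) + ∫ t in (a + d)..b, g t :=
      (intervalIntegral.integral_add_adjacent_intervals (hgc.intervalIntegrable _ _)
        (hgc.intervalIntegrable _ _)).symm
    have h1 : ‖∫ t in a..(a + d), g t‖ ≤ d := by
      have := norm_int_le (a := a) (b := a + d) (by linarith) hgn
      linarith
    have hwd : l * d ≤ w (a + d) := by
      have hmv : l * ((a + d) - a) ≤ w (a + d) - w a := by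
        apply Convex.mul_sub_le_image_sub_of_le_deriv (convex_Icc a b) hwc.continuousOn
          (fun t _ => (hw t).differentiableAt.differentiableWithinAt)
        · intro t ht
          rw [(hw t).deriv]
          exact hw'0 t (interior_subset ht)
        · exact left_mem_Icc.2 hab
        · exact ⟨by linarith, h.le⟩
        · linarith
      have : (a + d) - a = d := by ring
      rw [this] at hmv
      linarith
    have h2 : ‖∫ t in (a + d)..b, g t‖ ≤ 2 / (l * d) := by
      apply vdc_one h.le (by positivity) hg hgn hw hw'c _ hwd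
      intro t ht
      exact hl.le.trans (hw'0 t ⟨by linarith [ht.1], ht.2⟩)
    rw [hsplit]
    exact (norm_add_le _ _).trans (add_le_add h1 h2)

theorem vdc_half_neg {g : ℝ → ℂ} {w w' : ℝ → ℝ} {a b l d : ℝ} (hab : a ≤ b) (hl : 0 < l)
    (hd : 0 < d)
    (hg : ∀ t, HasDerivAt g (Complex.I * (w t : ℂ) * g t) t)
    (hgn : ∀ t, ‖g t‖ = 1)
    (hw : ∀ t, HasDerivAt w (w' t) t)
    (hw'c : Continuous w')
    (hw'0 : ∀ t ∈ Icc a b, l ≤ w' t)
    (hlow : w b ≤ 0) :
    ‖∫ t in a..b, g t‖ ≤ d + 2 / (l * d) := by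
  have key : ∫ t in a..b, g t = ∫ t in (-b)..(-a), g (-t) := by
    rw [intervalIntegral.integral_comp_neg]
    simp
  rw [key]
  apply vdc_half_pos (g := fun t => g (-t)) (w := fun t => - w (-t)) (w' := fun t => w' (-t))
    (by linarith) hl hd
  · intro t
    have h1 : HasDerivAt (fun s : ℝ => -s) (-1) t := hasDerivAt_neg t
    have h2 := (hg (-t)).scomp t h1
    refine h2.congr_deriv ?_
    simp
  · intro t; exact hgn _
  · intro t
    have h1 : HasDerivAt (fun s : ℝ => -s) (-1) t := hasDerivAt_neg t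
    have h2 := ((hw (-t)).comp t h1).neg
    refine h2.congr_deriv ?_
    ring
  · exact hw'c.comp continuous_neg
  · intro t ht
    exact hw'0 _ ⟨by linarith [ht.2], by linarith [ht.1]⟩
  · simp only [neg_neg]; linarith

/-- Second derivative test. -/
theorem vdc_two {g : ℝ → ℂ} {w w' : ℝ → ℝ} {a b l d : ℝ} (hab : a ≤ b) (hl : 0 < l)
    (hd : 0 < d)
    (hg : ∀ t, HasDerivAt g (Complex.I * (w t : ℂ) * g t) t)
    (hgn : ∀ t, ‖g t‖ = 1)
    (hw : ∀ t, HasDerivAt w (w' t) t)
    (hw'c : Continuous w')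
    (hw'0 : ∀ t ∈ Icc a b, l ≤ w' t) :
    ‖∫ t in a..b, g t‖ ≤ 2 * (d + 2 / (l * d)) := by
  have hgc : Continuous g := continuous_iff_continuousAt.2 fun t => (hg t).continuousAt
  have hwc : Continuous w := continuous_iff_continuousAt.2 fun t => (hw t).continuousAt
  have h0 : 0 < 2 / (l * d) := by positivity
  rcases le_or_gt 0 (w a) with h1 | h1
  · have := vdc_half_pos hab hl hd hg hgn hw hw'c hw'0 h1
    linarith
  · rcases le_or_gt (w b) 0 with h2 | h2
    · have := vdc_half_neg hab hl hd hg hgn hw hw'c hw'0 h2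
      linarith
    · obtain ⟨c, hc, hc0⟩ := intermediate_value_Icc hab hwc.continuousOn ⟨h1.le, h2.le⟩
      have hsplit : ∫ t in a..b, g t = (∫ t in a..c, g t) + ∫ t in c..b, g t :=
        (intervalIntegral.integral_add_adjacent_intervals (hgc.intervalIntegrable _ _)
          (hgc.intervalIntegrable _ _)).symm
      have h3 := vdc_half_neg hc.1 hl hd hg hgn hw hw'c
        (fun t ht => hw'0 t ⟨ht.1, ht.2.trans hc.2⟩) hc0.le
      have h4 := vdc_half_pos hc.2 hl hd hg hgn hw hw'c
        (fun t ht => hw'0 t ⟨hc.1.trans ht.1, ht.2⟩) hc0.ge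
      rw [hsplit]
      have := norm_add_le (∫ t in a..c, g t) (∫ t in c..b, g t)
      linarith

end Pool.Agent.Helper646.Vdc
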