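import Mathlib
import Pool.Agent.Helper646.Vdc

set_option autoImplicit false

namespace Pool.Agent.Helper646.Bibo

open MeasureTheory intervalIntegral Set

/-- the function `b(z) (z^3 + (1-z)^6/64)` with `b(z) = (2z-1)/(2-z)` -/
noncomputable def bb (z : ℂ) : ℂ := (2 * z - 1) / (2 - z)
noncomputable def cc (z : ℂ) : ℂ := z ^ 3 + (1 - z) ^ 6 / 64
noncomputable def FF (k : ℕ) (z : ℂ) : ℂ := (1 - z) ^ 7 * (bb z * cc z) ^ k

/-- point on the circle -/
noncomputable def ee (t : ℝ) : ℂ := Complex.exp (t * Complex.I)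

theorem ee_ne (t : ℝ) : ee t ≠ 0 := Complex.exp_ne_zero _

theorem ee_norm (t : ℝ) : ‖ee t‖ = 1 := by
  unfold ee; exact Complex.norm_exp_ofReal_mul_I t

theorem ee_deriv (t : ℝ) : HasDerivAt ee (Complex.I * ee t) t := by
  unfold ee
  have h1 : HasDerivAt (fun s : ℝ => (s : ℂ) * Complex.I) (1 * Complex.I) t :=
    (Complex.ofRealCLM.hasDerivAt (x := t)).mul_const Complex.I
  have h2 := h1.cexp
  refine h2.congr_deriv ?_
  ring

theorem ee_conj (t : ℝ) : (ee t) * ee (-t) = 1 := by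
  unfold ee
  rw [← Complex.exp_add]
  simp

theorem ee_add (s t : ℝ) : ee (s + t) = ee s * ee t := by
  unfold ee
  rw [← Complex.exp_add]
  congr 1
  push_cast; ring

theorem ee_nat (n : ℕ) (t : ℝ) : ee (n * t) = (ee t) ^ n := by
  unfold ee
  rw [← Complex.exp_nat_mul]
  congr 1
  push_cast; ring

/-- `2 - e^{it}` is nonzero -/
theorem two_sub_ne (t : ℝ) : (2 : ℂ) - ee t ≠ 0 := by
  intro h
  have h1 : ee t = 2 := by linear_combination -h
  have h2 := ee_norm t
  rw [h1] at h2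
  norm_num at h2

theorem two_mul_sub_ne (t : ℝ) : (2 : ℂ) * ee t - 1 ≠ 0 := by
  intro h
  have h1 : ee t = 1 / 2 := by linear_combination (1/2 : ℂ) * h
  have h2 := ee_norm t
  rw [h1] at h2
  norm_num at h2

/-- `e^{it} + e^{-it} = 2 cos t` -/
theorem ee_add_neg (t : ℝ) : ee t + ee (-t) = ((2 * Real.cos t : ℝ) : ℂ) := by
  unfold ee
  push_cast
  rw [Complex.cos]
  ring_nf

/-- the inverse (conjugate) of `b` on the circle -/
noncomputable def bi (t : ℝ) : ℂ := (2 - ee t) / (2 * ee t - 1)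

theorem bi_mul (t : ℝ) : bb (ee t) * bi t = 1 := by
  unfold bb bi
  have h1 := two_sub_ne t
  have h2 := two_mul_sub_ne t
  field_simp

theorem den_pos (t : ℝ) : 0 < 5 - 4 * Real.cos t := by
  have := Real.cos_le_one t
  linarith

theorem den_eq (t : ℝ) : (2 * ee t - 1) * (2 - ee t) = ee t * ((5 - 4 * Real.cos t : ℝ) : ℂ) := by
  have h1 := ee_add_neg t
  have h2 := ee_conj t
  push_cast at h1 ⊢
  linear_combination (-2 * ee t) * h1 + 2 * h2

theorem norm_two_sub_eq (t : ℝ) : ‖(2 : ℂ) - ee t‖ = ‖2 * ee t - 1‖ := by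
  have h1 : 2 * ee t - 1 = ee t * (2 - ee (-t)) := by
    have := ee_conj t
    linear_combination this
  have h2 : (2 : ℂ) - ee (-t) = (starRingEnd ℂ) (2 - ee t) := by
    unfold ee
    rw [map_sub, ← Complex.exp_conj]
    have h2' : (starRingEnd ℂ) (2 : ℂ) = 2 := Complex.conj_ofNat 2
    rw [h2']
    simp
  rw [h1, norm_mul, ee_norm, h2, RCLike.norm_conj, one_mul]

theorem bi_norm (t : ℝ) : ‖bi t‖ = 1 := by
  unfold bi
  rw [norm_div, norm_two_sub_eq]
  apply div_self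
  exact norm_ne_zero_iff.2 (two_mul_sub_ne t)

theorem bi_deriv (t : ℝ) :
    HasDerivAt bi (Complex.I * ((-(3 / (5 - 4 * Real.cos t)) : ℝ) : ℂ) * bi t) t := by
  have h1 : HasDerivAt (fun s : ℝ => (2 : ℂ) - ee s) (-(Complex.I * ee t)) t := by
    simpa using (ee_deriv t).const_sub (2 : ℂ)
  have h2 : HasDerivAt (fun s : ℝ => (2 : ℂ) * ee s - 1) (2 * (Complex.I * ee t)) t :=
    ((ee_deriv t).const_mul (2 : ℂ)).sub_const 1
  have h3 := h1.div h2 (two_mul_sub_ne t)
  have hfun : bi = (fun s : ℝ => ((2 : ℂ) - ee s) / ((2 : ℂ) * ee s - 1)) := rfl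
  have hfun2 : bi t = ((2 : ℂ) - ee t) / ((2 : ℂ) * ee t - 1) := rfl
  have h3' : HasDerivAt bi ((-(Complex.I * ee t) * (2 * ee t - 1) - (2 - ee t) * (2 * (Complex.I * ee t))) / (2 * ee t - 1) ^ 2) t := h3
  refine h3'.congr_deriv ?_
  rw [hfun2]
  have hd := den_eq t
  have hp : ((5 - 4 * Real.cos t : ℝ) : ℂ) ≠ 0 := by exact_mod_cast (den_pos t).ne'
  have h4 := two_sub_ne t
  have h5 := two_mul_sub_ne t
  have hcast : ((-(3 / (5 - 4 * Real.cos t)) : ℝ) : ℂ) = -(3 / ((5 - 4 * Real.cos t : ℝ) : ℂ)) := by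
    push_cast; ring
  rw [hcast]
  generalize ((5 - 4 * Real.cos t : ℝ) : ℂ) = q at hd hp ⊢
  have he := ee_ne t
  rw [mul_comm (2 * ee t - 1) (2 - ee t)] at hd
  have h6 : -(Complex.I * ee t) * (2 * ee t - 1) - (2 - ee t) * (2 * (Complex.I * ee t)) = -3 * Complex.I * ee t := by ring
  rw [h6, div_eq_iff (pow_ne_zero 2 h5)]
  have h7 : Complex.I * -(3 / q) * ((2 - ee t) / (2 * ee t - 1)) * (2 * ee t - 1) ^ 2
      = Complex.I * -(3 / q) * ((2 - ee t) * (2 * ee t - 1)) := by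
    field_simp
  rw [h7, hd]
  field_simp

/-- the unimodular factor with `FF k (e^{it}) * psi k t >= 0` -/
noncomputable def psi (k : ℕ) (t : ℝ) : ℂ :=
  (Complex.I * ee (-(t / 2))) ^ 7 * (ee (-(3 * t))) ^ k * (bi t) ^ k

theorem psi_norm (k : ℕ) (t : ℝ) : ‖psi k t‖ = 1 := by
  unfold psi
  simp [norm_pow, ee_norm, bi_norm]

theorem one_sub_ee (t : ℝ) : (1 - ee t) * (Complex.I * ee (-(t / 2))) = ((2 * Real.sin (t / 2) : ℝ) : ℂ) := by
  have h1 : ee t = ee (t / 2) * ee (t / 2) := by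
    rw [← ee_add]; congr 1; ring
  have h2 := ee_conj (t / 2)
  have h3 : ((2 * Real.sin (t / 2) : ℝ) : ℂ) = Complex.I * (ee (-(t / 2)) - ee (t / 2)) := by
    unfold ee
    push_cast
    rw [Complex.sin]
    ring_nf
  rw [h3, h1]
  linear_combination (-Complex.I * ee (t / 2)) * h2

theorem cc_ee (t : ℝ) : cc (ee t) * ee (-(3 * t)) = ((1 - (2 * Real.sin (t / 2)) ^ 6 / 64 : ℝ) : ℂ) := by
  have h1 := one_sub_ee t
  have h3 : (ee t) ^ 3 * ee (-(3 * t)) = 1 := by
    have : ee t ^ 3 = ee (3 * t) := by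
      have := ee_nat 3 t
      rw [← this]; norm_num
    rw [this]; exact ee_conj _
  have h4 : ee (-(3 * t)) = (ee (-(t / 2))) ^ 6 := by
    rw [← ee_nat]; congr 1; push_cast; ring
  have hI : Complex.I ^ 6 = -1 := by
    have : Complex.I ^ 6 = (Complex.I ^ 2) ^ 3 := by ring
    rw [this, Complex.I_sq]; norm_num
  have h5 : ((2 * Real.sin (t / 2) : ℝ) : ℂ) ^ 6 = - ((1 - ee t) ^ 6 * (ee (-(t / 2))) ^ 6) := by
    rw [← h1, mul_pow, mul_pow, hI]; ring
  have h6 : ((1 - (2 * Real.sin (t / 2)) ^ 6 / 64 : ℝ) : ℂ)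
      = 1 - ((2 * Real.sin (t / 2) : ℝ) : ℂ) ^ 6 / 64 := by push_cast; ring
  rw [h6, h5]
  unfold cc
  rw [← h4]
  linear_combination h3

theorem FF_psi (k : ℕ) (t : ℝ) :
    FF k (ee t) * psi k t
      = (((2 * Real.sin (t / 2)) ^ 7 * (1 - (2 * Real.sin (t / 2)) ^ 6 / 64) ^ k : ℝ) : ℂ) := by
  have h1 := one_sub_ee t
  have h2 := cc_ee t
  have h3 := bi_mul t
  unfold FF psi
  rw [Complex.ofReal_mul, Complex.ofReal_pow, Complex.ofReal_pow, ← h1, ← h2]
  have : (1 - ee t) ^ 7 * (bb (ee t) * cc (ee t)) ^ k *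
      ((Complex.I * ee (-(t / 2))) ^ 7 * ee (-(3 * t)) ^ k * bi t ^ k)
      = ((1 - ee t) * (Complex.I * ee (-(t / 2)))) ^ 7 * (cc (ee t) * ee (-(3 * t))) ^ k
        * (bb (ee t) * bi t) ^ k := by
    simp only [mul_pow]; ring
  rw [this, h3]; simp

/-- phase derivative of `e^{int} psi k t` -/
noncomputable def ww (n k : ℕ) (t : ℝ) : ℝ :=
  (n : ℝ) - 7 / 2 - 3 * k - k * (3 / (5 - 4 * Real.cos t))
noncomputable def ww' (k : ℕ) (t : ℝ) : ℝ :=
  k * (12 * Real.sin t / (5 - 4 * Real.cos t) ^ 2)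

theorem ww_deriv (n k : ℕ) (t : ℝ) : HasDerivAt (ww n k) (ww' k t) t := by
  have hc : HasDerivAt (fun s : ℝ => 5 - 4 * Real.cos s) (4 * Real.sin t) t := by
    have := ((Real.hasDerivAt_cos t).const_mul (4 : ℝ)).const_sub 5
    refine this.congr_deriv ?_
    ring
  have h1 : HasDerivAt (fun s : ℝ => 3 / (5 - 4 * Real.cos s))
      (- (3 * (4 * Real.sin t)) / (5 - 4 * Real.cos t) ^ 2) t := by
    have := (hasDerivAt_const t (3 : ℝ)).div hc (den_pos t).ne'
    refine this.congr_deriv ?_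
    ring
  have h2 := (h1.const_mul (k : ℝ)).const_sub ((n : ℝ) - 7 / 2 - 3 * k)
  unfold ww ww'
  refine h2.congr_deriv ?_
  ring

theorem ww'_cont (k : ℕ) : Continuous (ww' k) := by
  unfold ww'
  apply continuous_const.mul
  apply Continuous.div (by fun_prop) (by fun_prop)
  intro t
  exact pow_ne_zero 2 (den_pos t).ne'

theorem pow_phase {g : ℝ → ℂ} {w : ℝ} {t : ℝ} (n : ℕ) (h : HasDerivAt g (Complex.I * (w : ℂ) * g t) t) :
    HasDerivAt (fun s => g s ^ n) (Complex.I * ((n * w : ℝ) : ℂ) * g t ^ n) t := by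
  have h1 := h.fun_pow n
  refine h1.congr_deriv ?_
  rcases n with _ | n
  · simp
  · push_cast
    ring

theorem mul_phase {g h : ℝ → ℂ} {v w : ℝ} {t : ℝ}
    (hg : HasDerivAt g (Complex.I * (v : ℂ) * g t) t)
    (hh : HasDerivAt h (Complex.I * (w : ℂ) * h t) t) :
    HasDerivAt (fun s => g s * h s) (Complex.I * ((v + w : ℝ) : ℂ) * (g t * h t)) t := by
  have h1 := hg.mul hh
  refine h1.congr_deriv ?_
  push_cast; ring

theorem ee_lin (r t : ℝ) : HasDerivAt (fun s => ee (r * s)) (Complex.I * (r : ℂ) * ee (r * t)) t := by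
  have h1 : HasDerivAt (fun s : ℝ => r * s) r t := by
    simpa using (hasDerivAt_id t).const_mul r
  have h2 := (ee_deriv (r * t)).scomp t h1
  refine h2.congr_deriv ?_
  rw [Complex.real_smul]; ring

theorem phase_deriv (n k : ℕ) (t : ℝ) :
    HasDerivAt (fun s => (ee s) ^ n * psi k s)
      (Complex.I * (ww n k t : ℂ) * ((ee t) ^ n * psi k t)) t := by
  have h1 : HasDerivAt (fun s => (ee s) ^ n) (Complex.I * ((n * 1 : ℝ) : ℂ) * ee t ^ n) t := by
    apply pow_phase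
    simpa using ee_deriv t
  have h2 : HasDerivAt (fun s => (Complex.I * ee (-(s / 2))) ^ 7)
      (Complex.I * (((7 : ℕ) * (-(1 / 2)) : ℝ) : ℂ) * (Complex.I * ee (-(t / 2))) ^ 7) t := by
    apply pow_phase (g := fun s => Complex.I * ee (-(s / 2)))
    have h := (ee_lin (-(1 / 2)) t).const_mul Complex.I
    have hfun : (fun s : ℝ => Complex.I * ee (-(s / 2))) = (fun s : ℝ => Complex.I * ee (-(1 / 2) * s)) := by
      funext s; congr 2; ring
    rw [hfun]
    refine h.congr_deriv ?_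
    rw [show -(t / 2) = -(1 / 2) * t by ring]
    push_cast
    ring
  have h3 : HasDerivAt (fun s => (ee (-(3 * s))) ^ k)
      (Complex.I * ((k * (-3) : ℝ) : ℂ) * (ee (-(3 * t))) ^ k) t := by
    apply pow_phase (g := fun s => ee (-(3 * s)))
    have h := ee_lin (-3) t
    have hfun : (fun s : ℝ => ee (-(3 * s))) = (fun s : ℝ => ee (-3 * s)) := by
      funext s; congr 1; ring
    rw [hfun]
    refine h.congr_deriv ?_
    rw [show -(3 * t) = -3 * t by ring]
  have h4 : HasDerivAt (fun s => (bi s) ^ k)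
      (Complex.I * ((k * (-(3 / (5 - 4 * Real.cos t))) : ℝ) : ℂ) * (bi t) ^ k) t :=
    pow_phase k (bi_deriv t)
  have h5 := mul_phase h1 (mul_phase (mul_phase h2 h3) h4)
  refine h5.congr_deriv ?_
  unfold psi ww
  push_cast
  ring

theorem sin_lower {x : ℝ} (h0 : 0 < x) (h1 : x ≤ 1) : 3 / 4 * x ≤ Real.sin x := by
  have h := Real.sin_gt_sub_cube h0
  have : x ^ 3 ≤ x := by
    calc x ^ 3 = x * x ^ 2 := by ring
      _ ≤ x * 1 := by
        apply mul_le_mul_of_nonneg_left _ h0.le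
        nlinarith
      _ = x := by ring
  linarith

/-- lower bound for the phase second derivative -/
theorem ww'_lower (k : ℕ) {m : ℝ} (hm : 1 ≤ m) {t : ℝ} (ht : t ∈ Icc (1 / (2 * m)) (1 / m)) :
    k / (2 * m) ≤ ww' k t := by
  have hm0 : 0 < m := by linarith
  have ht0 : 0 < t := lt_of_lt_of_le (by positivity) ht.1
  have ht1 : t ≤ 1 := ht.2.trans (by rw [div_le_one hm0]; exact hm)
  have hs : 3 / 4 * t ≤ Real.sin t := sin_lower ht0 ht1
  have hc : 1 - t ^ 2 / 2 ≤ Real.cos t := Real.one_sub_sq_div_two_le_cos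
  have hd0 := den_pos t
  have hd : 5 - 4 * Real.cos t ≤ 3 := by nlinarith
  have hd2 : (5 - 4 * Real.cos t) ^ 2 ≤ 9 := by nlinarith
  unfold ww'
  have h1 : 1 / (2 * m) ≤ 12 * Real.sin t / (5 - 4 * Real.cos t) ^ 2 := by
    rw [le_div_iff₀ (by positivity)]
    have : 12 * (3 / 4 * (1 / (2 * m))) ≤ 12 * Real.sin t := by
      have := ht.1
      linarith
    refine le_trans ?_ this
    have hp : 0 < 1 / (2 * m) := by positivity
    nlinarith
  calc (k : ℝ) / (2 * m) = k * (1 / (2 * m)) := by ring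
    _ ≤ _ := by gcongr

/-- lower bound for the amplitude -/
theorem amp_lower (k : ℕ) {m : ℝ} (hm : 1 ≤ m) (hk : (k : ℝ) ≤ 2 * m ^ 6) {t : ℝ}
    (ht : t ∈ Icc (1 / (2 * m)) (1 / m)) :
    (1 / (4 * m)) ^ 7 / 2 ≤
      (2 * Real.sin (t / 2)) ^ 7 * (1 - (2 * Real.sin (t / 2)) ^ 6 / 64) ^ k := by
  have hm0 : 0 < m := by linarith
  have ht0 : 0 < t := lt_of_lt_of_le (by positivity) ht.1
  have ht1 : t ≤ 1 := ht.2.trans (by rw [div_le_one hm0]; exact hm)
  have hs : 3 / 4 * (t / 2) ≤ Real.sin (t / 2) := sin_lower (by linarith) (by linarith)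
  have hs2 : Real.sin (t / 2) ≤ t / 2 := Real.sin_le (by linarith)
  set u := 2 * Real.sin (t / 2) with hu
  have hu0 : 1 / (4 * m) ≤ u := by
    have h1 := ht.1
    have : 1 / (4 * m) = (1 / (2 * m)) / 2 := by field_simp; norm_num
    rw [this]
    linarith
  have hu00 : 0 < u := lt_of_lt_of_le (by positivity) hu0
  have hu1 : u ≤ 1 / m := by
    have h1 := ht.2
    linarith
  have hu6 : u ^ 6 ≤ (1 / m) ^ 6 := by gcongr
  have hm6 : 1 ≤ m ^ 6 := one_le_pow₀ hm
  have hinv : (1 / m) ^ 6 * m ^ 6 = 1 := by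
    rw [← mul_pow, one_div, inv_mul_cancel₀ hm0.ne', one_pow]
  have hu6' : u ^ 6 ≤ 1 := by
    calc u ^ 6 ≤ (1 / m) ^ 6 := hu6
      _ ≤ (1 / m) ^ 6 * m ^ 6 := by
          have : 0 < (1 / m) ^ 6 := by positivity
          nlinarith
      _ = 1 := hinv
  have hb : 1 / 2 ≤ (1 - u ^ 6 / 64) ^ k := by
    have h1 : 1 + (k : ℝ) * (-(u ^ 6 / 64)) ≤ (1 + (-(u ^ 6 / 64))) ^ k :=
      one_add_mul_le_pow (by linarith) k
    have h2 : (k : ℝ) * u ^ 6 ≤ 2 := by
      calc (k : ℝ) * u ^ 6 ≤ (2 * m ^ 6) * (1 / m) ^ 6 := by gcongr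
        _ = 2 * ((1 / m) ^ 6 * m ^ 6) := by ring
        _ = 2 := by rw [hinv]; norm_num
    have h3 : (1 + (-(u ^ 6 / 64))) = 1 - u ^ 6 / 64 := by ring
    rw [h3] at h1
    linarith
  have h7 : (1 / (4 * m)) ^ 7 ≤ u ^ 7 := by gcongr
  have h70 : 0 < (1 / (4 * m)) ^ 7 := by positivity
  calc (1 / (4 * m)) ^ 7 / 2 = (1 / (4 * m)) ^ 7 * (1 / 2) := by ring
    _ ≤ u ^ 7 * (1 - u ^ 6 / 64) ^ k := by
        apply mul_le_mul h7 hb (by norm_num) (by positivity)

/-- lower bound of the l^1 norm of the coefficients of `FF k` -/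
theorem coeff_lower (k : ℕ) (a : ℕ → ℂ) (hs : Summable fun n => ‖a n‖)
    (hF : ∀ t : ℝ, HasSum (fun n => a n * (ee t) ^ n) (FF k (ee t)))
    (M : ℝ) (hM : 1 ≤ M) (hk1 : M ^ 12 ≤ k) (hk2 : (k : ℝ) ≤ 2 * M ^ 12) :
    1 / (786432 * M ^ 11) ≤ ∑' n, ‖a n‖ := by
  set m : ℝ := M ^ 2 with hmdef
  have hm : 1 ≤ m := one_le_pow₀ hM
  have hm0 : 0 < m := by linarith
  have hM0 : 0 < M := by linarith
  set α : ℝ := 1 / (2 * m) with hα
  set β : ℝ := 1 / m with hβ
  have hαβ : α ≤ β := by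
    rw [hα, hβ]
    apply one_div_le_one_div_of_le hm0; linarith
  have hlen : β - α = 1 / (2 * m) := by rw [hα, hβ]; field_simp; norm_num
  have hk2' : (k : ℝ) ≤ 2 * m ^ 6 := by rw [hmdef]; calc (k : ℝ) ≤ 2 * M ^ 12 := hk2
                                          _ = _ := by ring
  -- the integral of F psi
  have heec : Continuous ee := continuous_iff_continuousAt.2 fun t => (ee_deriv t).continuousAt
  have hgc : ∀ n, Continuous (fun s => (ee s) ^ n * psi k s) := fun n =>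
    continuous_iff_continuousAt.2 fun t => (phase_deriv n k t).continuousAt
  have hsum : HasSum (fun n => ∫ t in α..β, a n * ((ee t) ^ n * psi k t))
      (∫ t in α..β, FF k (ee t) * psi k t) := by
    apply intervalIntegral.hasSum_integral_of_dominated_convergence (fun n _ => ‖a n‖)
    · intro n
      exact (continuous_const.mul (hgc n)).aestronglyMeasurable
    · intro n
      filter_upwards with t _
      rw [norm_mul, norm_mul, norm_pow, ee_norm, psi_norm]
      simp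
    · filter_upwards with t _
      exact hs
    · exact intervalIntegrable_const
    · filter_upwards with t _
      have h := (hF t).mul_right (psi k t)
      have hfun : (fun n => a n * ((ee t) ^ n * psi k t)) = fun n => a n * (ee t) ^ n * psi k t := by
        funext n; ring
      rw [hfun]
      exact h
  have hreal : (∫ t in α..β, FF k (ee t) * psi k t)
      = ((∫ t in α..β, (2 * Real.sin (t / 2)) ^ 7 * (1 - (2 * Real.sin (t / 2)) ^ 6 / 64) ^ k : ℝ) : ℂ) := by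
    rw [← intervalIntegral.integral_ofReal]
    apply intervalIntegral.integral_congr
    intro t _
    exact FF_psi k t
  have hlow : (1 / (4 * m)) ^ 7 / 2 * (β - α) ≤
      ∫ t in α..β, (2 * Real.sin (t / 2)) ^ 7 * (1 - (2 * Real.sin (t / 2)) ^ 6 / 64) ^ k := by
    have h1 : ∫ t in α..β, (1 / (4 * m)) ^ 7 / 2 = (1 / (4 * m)) ^ 7 / 2 * (β - α) := by
      rw [intervalIntegral.integral_const, smul_eq_mul]; ring
    rw [← h1]
    apply intervalIntegral.integral_mono_on hαβ intervalIntegrable_const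
    · apply Continuous.intervalIntegrable
      fun_prop
    · intro t ht
      exact amp_lower k hm hk2' ht
  -- upper bound of each term
  have hterm : ∀ n, ‖∫ t in α..β, a n * ((ee t) ^ n * psi k t)‖ ≤ ‖a n‖ * (12 / M ^ 5) := by
    intro n
    rw [intervalIntegral.integral_const_mul, norm_mul]
    apply mul_le_mul_of_nonneg_left _ (norm_nonneg _)
    have hl : 0 < M ^ 10 / 4 := by positivity
    have hd : 0 < 2 / M ^ 5 := by positivity
    have := Pool.Agent.Helper646.Vdc.vdc_two (g := fun t => (ee t) ^ n * psi k t) (w := ww n k)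
      (w' := ww' k) hαβ hl hd (fun t => phase_deriv n k t)
      (fun t => by simp [norm_pow, ee_norm, psi_norm])
      (fun t => ww_deriv n k t) (ww'_cont k)
      (fun t ht => by
        refine le_trans ?_ (ww'_lower k hm ht)
        rw [le_div_iff₀ (by positivity)]
        calc M ^ 10 / 4 * (2 * m) = M ^ 12 / 2 := by rw [hmdef]; ring
          _ ≤ M ^ 12 := by
            have : 0 < M ^ 12 := by positivity
            linarith
          _ ≤ k := hk1)
    refine this.trans (le_of_eq ?_)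
    field_simp
    norm_num
  have hsn : Summable fun n => ‖∫ t in α..β, a n * ((ee t) ^ n * psi k t)‖ :=
    Summable.of_nonneg_of_le (fun n => norm_nonneg _) hterm (hs.mul_right _)
  have hup : ‖∫ t in α..β, FF k (ee t) * psi k t‖ ≤ (∑' n, ‖a n‖) * (12 / M ^ 5) := by
    rw [← hsum.tsum_eq]
    calc _ ≤ ∑' n, ‖∫ t in α..β, a n * ((ee t) ^ n * psi k t)‖ := norm_tsum_le_tsum_norm hsn
      _ ≤ ∑' n, ‖a n‖ * (12 / M ^ 5) := hsn.tsum_le_tsum hterm (hs.mul_right _)
      _ = _ := by rw [tsum_mul_right]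
  rw [hreal, Complex.norm_real, Real.norm_eq_abs] at hup
  have h1 := hlow.trans ((le_abs_self _).trans hup)
  rw [hlen] at h1
  have h2 : (1 / (4 * m)) ^ 7 / 2 * (1 / (2 * m)) = (1 / (786432 * M ^ 11)) * (12 / M ^ 5) := by
    rw [hmdef]
    field_simp
    norm_num
  rw [h2] at h1
  exact le_of_mul_le_mul_right h1 (by positivity)

/-- MAIN: the double coefficient sequence cannot be absolutely summable. -/
theorem main (a : ℕ → ℕ → ℂ) (hs : Summable fun p : ℕ × ℕ => ‖a p.1 p.2‖)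
    (hF : ∀ (k : ℕ) (t : ℝ), HasSum (fun n => a n k * (ee t) ^ n) (FF k (ee t))) : False := by
  have hs' : Summable fun p : ℕ × ℕ => ‖a p.2 p.1‖ := hs.prod_symm
  have hk : ∀ k, Summable fun n => ‖a n k‖ := fun k => hs'.prod_factor k
  have hS : Summable fun k => ∑' n, ‖a n k‖ := hs'.prod
  obtain ⟨M, hM⟩ := exists_nat_gt (786432 * (∑' k, ∑' n, ‖a n k‖) + 1)
  have hS0 : 0 ≤ ∑' k, ∑' n, ‖a n k‖ := tsum_nonneg fun k => tsum_nonneg fun n => norm_nonneg _
  have hM1 : (1 : ℝ) ≤ M := by linarith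
  have hM0 : (0 : ℝ) < M := by linarith
  have h1 : ∑ k ∈ Finset.Ico (M ^ 12) (2 * M ^ 12), (1 / (786432 * (M : ℝ) ^ 11))
      ≤ ∑ k ∈ Finset.Ico (M ^ 12) (2 * M ^ 12), ∑' n, ‖a n k‖ := by
    apply Finset.sum_le_sum
    intro k hkm
    rw [Finset.mem_Ico] at hkm
    apply coeff_lower k (fun n => a n k) (hk k) (hF k) M hM1
    · exact_mod_cast hkm.1
    · exact_mod_cast hkm.2.le
  have h2 : ∑ k ∈ Finset.Ico (M ^ 12) (2 * M ^ 12), ∑' n, ‖a n k‖ ≤ ∑' k, ∑' n, ‖a n k‖ :=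
    hS.sum_le_tsum _ fun k _ => tsum_nonneg fun n => norm_nonneg _
  rw [Finset.sum_const, Nat.card_Ico, nsmul_eq_mul] at h1
  have hc : ((2 * M ^ 12 - M ^ 12 : ℕ) : ℝ) = (M : ℝ) ^ 12 := by
    have : 2 * M ^ 12 - M ^ 12 = M ^ 12 := by omega
    rw [this]; push_cast; ring
  rw [hc] at h1
  have h3 : (M : ℝ) ^ 12 * (1 / (786432 * (M : ℝ) ^ 11)) = M / 786432 := by
    field_simp
  rw [h3] at h1
  have h4 := h1.trans h2
  rw [div_le_iff₀ (by norm_num)] at h4
  linarith

end Pool.Agent.Helper646.Bibo
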