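import Mathlib
import Pool.Agent.Helper646.Bibo

set_option autoImplicit false

namespace Pool.Agent.Helper646.Bibo

open Set

theorem two_sub_ne' {z : ℂ} (hz : ‖z‖ ≤ 1) : (2 : ℂ) - z ≠ 0 := by
  intro h
  have h1 : z = 2 := by linear_combination -h
  rw [h1] at hz
  norm_num at hz

theorem normSq_diff (z : ℂ) : Complex.normSq (2 - z) - Complex.normSq (2 * z - 1)
    = 3 * (1 - Complex.normSq z) := by
  simp only [Complex.normSq_apply, Complex.sub_re, Complex.sub_im, Complex.mul_re, Complex.mul_im,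
    Complex.re_ofNat, Complex.im_ofNat, Complex.one_re, Complex.one_im]
  ring

theorem bb_norm_le {z : ℂ} (hz : ‖z‖ ≤ 1) : ‖bb z‖ ≤ 1 := by
  unfold bb
  have h0 := two_sub_ne' hz
  have h1 : 0 < ‖(2 : ℂ) - z‖ := norm_pos_iff.2 h0
  rw [norm_div, div_le_one h1]
  have h2 := normSq_diff z
  rw [Complex.normSq_eq_norm_sq, Complex.normSq_eq_norm_sq, Complex.normSq_eq_norm_sq] at h2
  have h3 : ‖z‖ ^ 2 ≤ 1 := by
    have := norm_nonneg z
    nlinarith
  have h4 : ‖2 * z - 1‖ ^ 2 ≤ ‖2 - z‖ ^ 2 := by linarith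
  exact le_of_sq_le_sq h4 h1.le

theorem bb_norm_lt {z : ℂ} (hz : ‖z‖ < 1) : ‖bb z‖ < 1 := by
  unfold bb
  have h0 := two_sub_ne' hz.le
  have h1 : 0 < ‖(2 : ℂ) - z‖ := norm_pos_iff.2 h0
  rw [norm_div, div_lt_one h1]
  have h2 := normSq_diff z
  rw [Complex.normSq_eq_norm_sq, Complex.normSq_eq_norm_sq, Complex.normSq_eq_norm_sq] at h2
  have h3 : ‖z‖ ^ 2 < 1 := by
    have := norm_nonneg z
    nlinarith
  have h4 : ‖2 * z - 1‖ ^ 2 < ‖2 - z‖ ^ 2 := by linarith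
  exact lt_of_pow_lt_pow_left₀ 2 h1.le h4

theorem exists_ee {z : ℂ} (hz : ‖z‖ = 1) : ∃ t : ℝ, z = ee t := by
  refine ⟨Complex.arg z, ?_⟩
  unfold ee
  have := Complex.norm_mul_exp_arg_mul_I z
  rw [hz] at this
  simpa using this.symm

theorem sin_pow_le (t : ℝ) : (2 * Real.sin (t / 2)) ^ 6 ≤ 64 := by
  have h := Real.sin_sq_le_one (t / 2)
  have h0 := sq_nonneg (Real.sin (t / 2))
  have h1 : (2 * Real.sin (t / 2)) ^ 6 = 64 * (Real.sin (t / 2) ^ 2) ^ 3 := by ring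
  rw [h1]
  have : (Real.sin (t / 2) ^ 2) ^ 3 ≤ 1 := pow_le_one₀ h0 h
  linarith

theorem norm_cc_ee (t : ℝ) : ‖cc (ee t)‖ = 1 - (2 * Real.sin (t / 2)) ^ 6 / 64 := by
  have h1 := cc_ee t
  have h2 : ‖cc (ee t) * ee (-(3 * t))‖ = ‖cc (ee t)‖ := by
    rw [norm_mul, ee_norm, mul_one]
  rw [← h2, h1, Complex.norm_real, Real.norm_eq_abs, abs_of_nonneg]
  have := sin_pow_le t
  linarith

theorem norm_one_sub_ee (t : ℝ) : ‖1 - ee t‖ ^ 6 = (2 * Real.sin (t / 2)) ^ 6 := by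
  have h1 := one_sub_ee t
  have h2 : ‖(1 - ee t) * (Complex.I * ee (-(t / 2)))‖ = ‖1 - ee t‖ := by
    rw [norm_mul, norm_mul, ee_norm, Complex.norm_I]; ring
  rw [← h2, h1, Complex.norm_real, Real.norm_eq_abs]
  exact Even.pow_abs (by decide) _

theorem circle_key {z : ℂ} (hz : ‖z‖ = 1) : ‖1 - z‖ ^ 6 = 64 * (1 - ‖cc z‖) := by
  obtain ⟨t, rfl⟩ := exists_ee hz
  rw [norm_cc_ee, norm_one_sub_ee]; ring

theorem cc_diff : Differentiable ℂ cc := by
  unfold cc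
  fun_prop

theorem cc_norm_le {z : ℂ} (hz : ‖z‖ ≤ 1) : ‖cc z‖ ≤ 1 := by
  apply Complex.norm_le_of_forall_mem_frontier_norm_le (U := Metric.ball (0 : ℂ) 1)
    Metric.isBounded_ball cc_diff.diffContOnCl
  · intro w hw
    rw [frontier_ball _ one_ne_zero, mem_sphere_zero_iff_norm] at hw
    have := circle_key hw
    have h2 : 0 ≤ ‖1 - w‖ ^ 6 := by positivity
    linarith
  · rw [closure_ball _ one_ne_zero]
    simpa using hz

theorem bc_norm_le {z : ℂ} (hz : ‖z‖ ≤ 1) : ‖bb z * cc z‖ ≤ 1 := by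
  rw [norm_mul]
  exact mul_le_one₀ (bb_norm_le hz) (norm_nonneg _) (cc_norm_le hz)

theorem bc_norm_lt {z : ℂ} (hz : ‖z‖ ≤ 1) (h1 : z ≠ 1) : ‖bb z * cc z‖ < 1 := by
  rw [norm_mul]
  rcases hz.lt_or_eq with h | h
  · calc ‖bb z‖ * ‖cc z‖ ≤ ‖bb z‖ * 1 := by gcongr; exact cc_norm_le hz
      _ < 1 := by rw [mul_one]; exact bb_norm_lt h
  · have h2 := circle_key h
    have h3 : 0 < ‖1 - z‖ := norm_pos_iff.2 (sub_ne_zero.2 (Ne.symm h1))
    have h4 : 0 < ‖1 - z‖ ^ 6 := by positivity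
    calc ‖bb z‖ * ‖cc z‖ ≤ 1 * ‖cc z‖ := by gcongr; exact bb_norm_le hz
      _ < 1 := by linarith

theorem one_sub_ne {z w : ℂ} (hz : ‖z‖ ≤ 1) (hw : ‖w‖ < 1) : 1 - w * (bb z * cc z) ≠ 0 := by
  intro h
  have h1 : w * (bb z * cc z) = 1 := by linear_combination -h
  have h2 : ‖w * (bb z * cc z)‖ < 1 := by
    rw [norm_mul]
    calc ‖w‖ * ‖bb z * cc z‖ ≤ ‖w‖ * 1 := by gcongr; exact bc_norm_le hz
      _ < 1 := by linarith
  rw [h1] at h2
  simp at h2

theorem one_sub_eq {z w : ℂ} (hz : ‖z‖ ≤ 1) (hw : ‖w‖ ≤ 1) (h : 1 - w * (bb z * cc z) = 0) :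
    z = 1 ∧ w = 1 := by
  have h1 : w * (bb z * cc z) = 1 := by linear_combination -h
  have hz1 : z = 1 := by
    by_contra hne
    have h2 : ‖w * (bb z * cc z)‖ < 1 := by
      rw [norm_mul]
      calc ‖w‖ * ‖bb z * cc z‖ ≤ 1 * ‖bb z * cc z‖ := by gcongr
        _ < 1 := by rw [one_mul]; exact bc_norm_lt hz hne
    rw [h1] at h2
    simp at h2
  refine ⟨hz1, ?_⟩
  rw [hz1] at h1
  unfold bb cc at h1
  norm_num at h1
  exact h1

theorem bc_diffAt {z : ℂ} (hz : z ≠ 2) : DifferentiableAt ℂ (fun z => bb z * cc z) z := by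
  unfold bb cc
  have : (2 : ℂ) - z ≠ 0 := sub_ne_zero.2 (Ne.symm hz)
  fun_prop (disch := assumption)

theorem ne_two {z : ℂ} (hz : ‖z‖ < 2) : z ≠ 2 := by
  rintro rfl
  norm_num at hz

theorem key_lt {z w : ℂ} (hz : ‖z‖ ≤ 1) (hw : ‖w‖ < 1) :
    ‖1 - z‖ ^ 6 ≤ 64 * ‖1 - w * (bb z * cc z)‖ := by
  have main : ‖(1 - z) ^ 6 / (1 - w * (bb z * cc z))‖ ≤ 64 := by
    apply Complex.norm_le_of_forall_mem_frontier_norm_le (U := Metric.ball (0 : ℂ) 1)
      (f := fun z => (1 - z) ^ 6 / (1 - w * (bb z * cc z)))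
      Metric.isBounded_ball
    · apply DifferentiableOn.diffContOnCl_ball (U := Metric.closedBall (0 : ℂ) 1) _ subset_rfl
      intro x hx
      have hx1 : ‖x‖ ≤ 1 := by simpa using hx
      apply DifferentiableAt.differentiableWithinAt
      apply DifferentiableAt.div
      · fun_prop
      · exact (differentiableAt_const _).sub ((differentiableAt_const _).mul
          (bc_diffAt (ne_two (by linarith))))
      · exact one_sub_ne hx1 hw
    · intro x hx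
      rw [frontier_ball _ one_ne_zero, mem_sphere_zero_iff_norm] at hx
      have h1 := circle_key hx
      have h2 := one_sub_ne hx.le hw
      have h3 : 0 < ‖1 - w * (bb x * cc x)‖ := norm_pos_iff.2 h2
      rw [norm_div, norm_pow, div_le_iff₀ h3, h1]
      have h4 : 1 - ‖cc x‖ ≤ ‖1 - w * (bb x * cc x)‖ := by
        have h5 : ‖w * (bb x * cc x)‖ ≤ ‖cc x‖ := by
          rw [norm_mul, norm_mul]
          calc ‖w‖ * (‖bb x‖ * ‖cc x‖) ≤ 1 * (1 * ‖cc x‖) := by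
                gcongr
                exact bb_norm_le hx.le
            _ = _ := by ring
        have h6 := norm_sub_norm_le (1 : ℂ) (w * (bb x * cc x))
        rw [norm_one] at h6
        linarith
      linarith
    · rw [closure_ball _ one_ne_zero]
      simpa using hz
  have h3 : 0 < ‖1 - w * (bb z * cc z)‖ := norm_pos_iff.2 (one_sub_ne hz hw)
  rw [norm_div, norm_pow, div_le_iff₀ h3] at main
  exact main

theorem key {z w : ℂ} (hz : ‖z‖ ≤ 1) (hw : ‖w‖ ≤ 1) :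
    ‖1 - z‖ ^ 6 ≤ 64 * ‖1 - w * (bb z * cc z)‖ := by
  apply le_of_forall_pos_le_add
  intro ε hε
  set δ : ℝ := min (ε / 64) (1 / 2) with hδ
  have hδ0 : 0 < δ := lt_min (by positivity) (by norm_num)
  have hδ1 : δ ≤ ε / 64 := min_le_left _ _
  have hδ2 : δ ≤ 1 / 2 := min_le_right _ _
  have hw' : ‖((1 - δ : ℝ) : ℂ) * w‖ < 1 := by
    rw [norm_mul, Complex.norm_real, Real.norm_eq_abs, abs_of_nonneg (by linarith)]
    calc (1 - δ) * ‖w‖ ≤ (1 - δ) * 1 := by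
          apply mul_le_mul_of_nonneg_left hw (by linarith)
      _ < 1 := by linarith
  have h1 := key_lt hz hw'
  have h2 : ‖1 - ((1 - δ : ℝ) : ℂ) * w * (bb z * cc z)‖ ≤ ‖1 - w * (bb z * cc z)‖ + δ := by
    have h3 : 1 - ((1 - δ : ℝ) : ℂ) * w * (bb z * cc z)
        = (1 - w * (bb z * cc z)) + (δ : ℂ) * (w * (bb z * cc z)) := by
      push_cast; ring
    rw [h3]
    refine (norm_add_le _ _).trans ?_
    gcongr
    rw [norm_mul, norm_mul, Complex.norm_real, Real.norm_eq_abs, abs_of_pos hδ0]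
    calc δ * (‖w‖ * ‖bb z * cc z‖) ≤ δ * (1 * 1) := by
          gcongr
          exact bc_norm_le hz
      _ = δ := by ring
  linarith

/-- The value `P/Q` in terms of `bb`, `cc`. -/
theorem Q_factor {z w : ℂ} (hz : (2 : ℂ) - z ≠ 0) :
    (2 - z) - w * ((2 * z - 1) * (z ^ 3 + (1 / 64) * (1 - z) ^ 6))
      = (2 - z) * (1 - w * (bb z * cc z)) := by
  unfold bb cc
  field_simp

noncomputable def PP (z : ℂ) : ℂ := (2 - z) * (1 - z) ^ 7
noncomputable def QQ (z w : ℂ) : ℂ :=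
  (2 - z) - w * ((2 * z - 1) * (z ^ 3 + (1 / 64) * (1 - z) ^ 6))

theorem QQ_zero {z w : ℂ} (hz : ‖z‖ ≤ 1) (hw : ‖w‖ ≤ 1) (h : QQ z w = 0) : z = 1 ∧ w = 1 := by
  unfold QQ at h
  rw [Q_factor (two_sub_ne' hz)] at h
  rcases mul_eq_zero.1 h with h | h
  · exact absurd h (two_sub_ne' hz)
  · exact one_sub_eq hz hw h

theorem PQ_bound {z w : ℂ} (hz : ‖z‖ ≤ 1) (hw : ‖w‖ ≤ 1) :
    ‖PP z / QQ z w‖ ≤ 64 * ‖1 - z‖ := by
  by_cases h : QQ z w = 0
  · rw [h]; simp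
  · have h0 := two_sub_ne' hz
    unfold QQ PP at *
    rw [Q_factor h0] at h ⊢
    have h1 : 1 - w * (bb z * cc z) ≠ 0 := fun h2 => h (by rw [h2, mul_zero])
    rw [mul_div_mul_left _ _ h0, norm_div, norm_pow,
      div_le_iff₀ (norm_pos_iff.2 h1)]
    have := key hz hw
    calc ‖1 - z‖ ^ 7 = ‖1 - z‖ * ‖1 - z‖ ^ 6 := by ring
      _ ≤ ‖1 - z‖ * (64 * ‖1 - w * (bb z * cc z)‖) := by gcongr
      _ = _ := by ring

theorem PQ_cont : ContinuousOn (fun z : Fin 2 → ℂ => PP (z 0) / QQ (z 0) (z 1))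
    {z : Fin 2 → ℂ | ∀ i, ‖z i‖ ≤ 1} := by
  intro z hz
  by_cases h : QQ (z 0) (z 1) = 0
  · have h1 := QQ_zero (hz 0) (hz 1) h
    have h2 : PP (z 0) / QQ (z 0) (z 1) = 0 := by rw [h]; simp
    show Filter.Tendsto _ _ (nhds (PP (z 0) / QQ (z 0) (z 1)))
    rw [h2]
    apply squeeze_zero_norm' (a := fun y : Fin 2 → ℂ => 64 * ‖1 - y 0‖)
    · filter_upwards [self_mem_nhdsWithin] with y hy
      exact PQ_bound (hy 0) (hy 1)
    · have h3 : Continuous (fun y : Fin 2 → ℂ => 64 * ‖1 - y 0‖) :=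
        continuous_const.mul ((continuous_const.sub (continuous_apply 0)).norm)
      have h4 : 64 * ‖1 - z 0‖ = 0 := by
        rw [h1.1]; simp
      have h5 : Filter.Tendsto (fun y : Fin 2 → ℂ => 64 * ‖1 - y 0‖) (nhds z)
          (nhds (64 * ‖1 - z 0‖)) := h3.continuousAt
      rw [h4] at h5
      exact h5.mono_left nhdsWithin_le_nhds
  · apply ContinuousAt.continuousWithinAt
    apply ContinuousAt.div
    · unfold PP; fun_prop
    · unfold QQ; fun_prop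
    · exact h

end Pool.Agent.Helper646.Bibo
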