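import Mathlib

set_option autoImplicit false

namespace Pool.Agent.Helper646.Bibo

open MvPolynomial

variable (K : Type*) [Field K] [CharZero K]

noncomputable def PA : MvPolynomial (Fin 2) K :=
  (X 0 - C 2) * (X 0 - C 1) ^ 7

noncomputable def PB : MvPolynomial (Fin 2) K :=
  (C 2 - X 0) - X 1 * ((C 2 * X 0 - C 1) * (X 0 ^ 3 + C (1 / 64) * (C 1 - X 0) ^ 6))

omit [CharZero K] in
theorem prime_X_sub_C (a : K) : Prime (X 0 - C a : MvPolynomial (Fin 2) K) := by
  rw [← MulEquiv.prime_iff (finSuccEquiv K 1)]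
  have : (finSuccEquiv K 1) (X 0 - C a) = Polynomial.X - Polynomial.C (C a) := by
    rw [map_sub, finSuccEquiv_X_zero]
    congr 1
    rw [finSuccEquiv_apply]
    simp
  rw [this]
  exact Polynomial.prime_X_sub_C _

theorem not_dvd_one : ¬ (X 0 - C 1 : MvPolynomial (Fin 2) K) ∣ PB K := by
  rintro ⟨q, hq⟩
  have h := congrArg (eval (![1, 0] : Fin 2 → K)) hq
  simp [PB] at h
  norm_num at h

theorem not_dvd_two : ¬ (X 0 - C 2 : MvPolynomial (Fin 2) K) ∣ PB K := by
  rintro ⟨q, hq⟩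
  have h := congrArg (eval (![2, 1] : Fin 2 → K)) hq
  simp [PB] at h
  norm_num at h

theorem relPrime : IsRelPrime (PA K) (PB K) := by
  unfold PA
  apply IsRelPrime.mul_left
  · exact (prime_X_sub_C K 2).irreducible.isRelPrime_iff_not_dvd.2 (not_dvd_two K)
  · exact ((prime_X_sub_C K 1).irreducible.isRelPrime_iff_not_dvd.2 (not_dvd_one K)).pow_left

end Pool.Agent.Helper646.Bibo
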