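import Mathlib
import Pool.Agent.Helper646.Disc

set_option autoImplicit false

namespace Pool.Agent.Helper646.Bibo

open Set

theorem FF_diffOn (k : ℕ) : DifferentiableOn ℂ (FF k) (Metric.ball 0 2) := by
  intro z hz
  have hz2 : ‖z‖ < 2 := by simpa using hz
  apply DifferentiableAt.differentiableWithinAt
  unfold FF
  exact ((differentiableAt_const _).sub differentiableAt_id).pow 7 |>.mul
    ((bc_diffAt (ne_two hz2)).pow k)

noncomputable def hh (n k : ℕ) : ℂ := ((n.factorial : ℂ))⁻¹ * iteratedDeriv n (FF k) 0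

theorem FF_hasSum (k : ℕ) {z : ℂ} (hz : ‖z‖ < 2) :
    HasSum (fun n => hh n k * z ^ n) (FF k z) := by
  have h := Complex.hasSum_taylorSeries_on_ball (FF_diffOn k) (z := z) (by simpa using hz)
  have hfun : (fun n => hh n k * z ^ n)
      = fun n : ℕ => ((n.factorial : ℂ))⁻¹ • (z - 0) ^ n • iteratedDeriv n (FF k) 0 := by
    funext n
    unfold hh
    simp only [smul_eq_mul, sub_zero]
    ring
  rw [hfun]
  exact h

theorem FF_bound (k : ℕ) {z : ℂ} (hz : ‖z‖ ≤ 1) : ‖FF k z‖ ≤ 128 := by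
  unfold FF
  rw [norm_mul, norm_pow, norm_pow]
  have h1 : ‖1 - z‖ ≤ 2 := by
    calc ‖1 - z‖ ≤ ‖(1 : ℂ)‖ + ‖z‖ := norm_sub_le _ _
      _ ≤ 2 := by rw [norm_one]; linarith
  calc ‖1 - z‖ ^ 7 * ‖bb z * cc z‖ ^ k ≤ 2 ^ 7 * 1 ^ k := by
        gcongr
        exact bc_norm_le hz
    _ = 128 := by norm_num

theorem hh_bound (n k : ℕ) : ‖hh n k‖ ≤ 128 := by
  unfold hh
  have hd : DiffContOnCl ℂ (FF k) (Metric.ball 0 1) := by
    apply DifferentiableOn.diffContOnCl_ball (FF_diffOn k)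
    intro z hz
    simp only [Metric.mem_closedBall, dist_zero_right] at hz
    simp only [Metric.mem_ball, dist_zero_right]
    linarith
  have h := Complex.norm_iteratedDeriv_le_of_forall_mem_sphere_norm_le (C := 128) n one_pos hd
    (fun z hz => FF_bound k (by rw [mem_sphere_zero_iff_norm] at hz; exact hz.le))
  rw [one_pow, div_one] at h
  rw [norm_mul, norm_inv, Complex.norm_natCast]
  have hf : (0 : ℝ) < n.factorial := by exact_mod_cast n.factorial_pos
  rw [inv_mul_le_iff₀ hf]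
  exact h

theorem FF_geom {z w : ℂ} (hz : ‖z‖ ≤ 1) (hw : ‖w‖ < 1) :
    HasSum (fun k => FF k z * w ^ k) (PP z / QQ z w) := by
  have h0 := two_sub_ne' hz
  have h1 : ‖w * (bb z * cc z)‖ < 1 := by
    rw [norm_mul]
    calc ‖w‖ * ‖bb z * cc z‖ ≤ ‖w‖ * 1 := by gcongr; exact bc_norm_le hz
      _ < 1 := by linarith
  have h2 := (hasSum_geometric_of_norm_lt_one h1).mul_left ((1 - z) ^ 7)
  have h3 : PP z / QQ z w = (1 - z) ^ 7 * (1 - w * (bb z * cc z))⁻¹ := by
    unfold PP QQ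
    rw [Q_factor h0, mul_div_mul_left _ _ h0]
    rfl
  rw [h3]
  have hfun : (fun k => FF k z * w ^ k) = fun k => (1 - z) ^ 7 * (w * (bb z * cc z)) ^ k := by
    funext k
    unfold FF
    rw [mul_pow w]; ring
  rw [hfun]
  exact h2

theorem hh_hasSum {z w : ℂ} (hz : ‖z‖ < 1) (hw : ‖w‖ < 1) :
    HasSum (fun p : ℕ × ℕ => hh p.1 p.2 * z ^ p.1 * w ^ p.2) (PP z / QQ z w) := by
  have hs : Summable (fun p : ℕ × ℕ => hh p.1 p.2 * z ^ p.1 * w ^ p.2) := by
    have h1 : Summable (fun p : ℕ × ℕ => ‖z‖ ^ p.1 * ‖w‖ ^ p.2) :=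
      (summable_geometric_of_lt_one (norm_nonneg _) hz).mul_of_nonneg
        (summable_geometric_of_lt_one (norm_nonneg _) hw)
        (fun n => by positivity) (fun n => by positivity)
    apply Summable.of_norm_bounded (h1.mul_left 128)
    intro p
    rw [norm_mul, norm_mul, norm_pow, norm_pow, mul_assoc]
    gcongr
    exact hh_bound _ _
  obtain ⟨S, hS⟩ := hs
  have hS' : HasSum (fun p : ℕ × ℕ => hh p.2 p.1 * z ^ p.2 * w ^ p.1) S := by
    have := (Equiv.prodComm ℕ ℕ).hasSum_iff.2 hS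
    exact this
  have h2 : HasSum (fun k => FF k z * w ^ k) S := by
    apply hS'.prod_fiberwise
    intro k
    exact (FF_hasSum k (by linarith)).mul_right (w ^ k)
  rw [← h2.unique (FF_geom hz.le hw)]
  exact hS

theorem hh_not_summable : ¬ Summable (fun p : ℕ × ℕ => ‖hh p.1 p.2‖) := by
  intro h
  apply main hh h
  intro k t
  apply FF_hasSum
  rw [ee_norm]; norm_num

end Pool.Agent.Helper646.Bibo
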