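import Mathlib
import Pool.Agent.Helper646.Taylor
import Pool.Agent.Helper646.Poly

set_option autoImplicit false

namespace Pool.Agent.Helper646.Bibo

open Set

/-- the formal series `f` converges (unconditionally) at `z` with sum `S` -/
def HasEval (f : MvPowerSeries (Fin 2) ℝ) (z : Fin 2 → ℂ) (S : ℂ) : Prop :=
  HasSum (fun k : Fin 2 →₀ ℕ => ((MvPowerSeries.coeff k f : ℝ) : ℂ) * ∏ i, z i ^ k i) S

theorem HasEval.mulC {f : MvPowerSeries (Fin 2) ℝ} {z : Fin 2 → ℂ} {S : ℂ} (h : HasEval f z S)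
    (a : ℝ) : HasEval (f * MvPowerSeries.C a) z (S * a) := by
  unfold HasEval at *
  have := h.mul_right (a : ℂ)
  have hfun : (fun k : Fin 2 →₀ ℕ => ((MvPowerSeries.coeff k (f * MvPowerSeries.C a) : ℝ) : ℂ) * ∏ i, z i ^ k i)
      = fun k : Fin 2 →₀ ℕ => ((MvPowerSeries.coeff k f : ℝ) : ℂ) * (∏ i, z i ^ k i) * (a : ℂ) := by
    funext k
    rw [MvPowerSeries.coeff_mul_C]
    push_cast; ring
  rw [hfun]
  exact this

theorem HasEval.mulX {f : MvPowerSeries (Fin 2) ℝ} {z : Fin 2 → ℂ} {S : ℂ} (h : HasEval f z S)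
    (j : Fin 2) : HasEval (f * MvPowerSeries.X j) z (S * z j) := by
  unfold HasEval at *
  have hinj : Function.Injective (fun k : Fin 2 →₀ ℕ => k + Finsupp.single j 1) :=
    fun a b hab => add_right_cancel hab
  rw [← hinj.hasSum_iff]
  · have := h.mul_right (z j)
    refine this.congr_fun ?_ |> fun h => h
    intro k
    simp only [Function.comp]
    rw [MvPowerSeries.X_def, MvPowerSeries.coeff_add_mul_monomial]
    have : ∏ i, z i ^ ((k + Finsupp.single j (1 : ℕ) : Fin 2 →₀ ℕ) i) = (∏ i, z i ^ k i) * z j := by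
      simp only [Finsupp.add_apply, pow_add, Finset.prod_mul_distrib]
      congr 1
      rw [Finset.prod_eq_single j]
      · simp
      · intro b _ hb
        rw [Finsupp.single_eq_of_ne hb]; simp
      · simp
    rw [this]
    push_cast; ring
  · intro k hk
    rw [MvPowerSeries.X_def, MvPowerSeries.coeff_mul_monomial, if_neg]
    · simp
    · intro hle
      apply hk
      exact ⟨k - Finsupp.single j 1, by simp only; exact tsub_add_cancel_of_le hle⟩

theorem HasEval.mulPoly {z : Fin 2 → ℂ} (p : MvPolynomial (Fin 2) ℝ) :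
    ∀ {f : MvPowerSeries (Fin 2) ℝ} {S : ℂ}, HasEval f z S →
      HasEval (f * (p : MvPowerSeries (Fin 2) ℝ)) z (S * MvPolynomial.aeval z p) := by
  induction p using MvPolynomial.induction_on with
  | C a =>
    intro f S h
    rw [MvPolynomial.coe_C]
    simpa using h.mulC a
  | add p q hp hq =>
    intro f S h
    have h1 := (hp h).add (hq h)
    unfold HasEval
    rw [MvPolynomial.coe_add, map_add, mul_add, mul_add]
    refine h1.congr_fun ?_ |> fun h => h
    intro k
    rw [map_add]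
    push_cast; ring
  | mul_X p n hp =>
    intro f S h
    have h1 := (hp h).mulX n
    rw [MvPolynomial.coe_mul, MvPolynomial.coe_X, map_mul, MvPolynomial.aeval_X, ← mul_assoc,
      ← mul_assoc]
    exact h1

theorem hasEval_one (z : Fin 2 → ℂ) : HasEval 1 z 1 := by
  unfold HasEval
  have := hasSum_single (f := fun k : Fin 2 →₀ ℕ =>
    ((MvPowerSeries.coeff k (1 : MvPowerSeries (Fin 2) ℝ) : ℝ) : ℂ) * ∏ i, z i ^ k i) 0 (by
      intro k hk
      rw [MvPowerSeries.coeff_one, if_neg hk]; simp)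
  simpa [MvPowerSeries.coeff_one] using this

noncomputable def ep : (Fin 2 →₀ ℕ) ≃ ℕ × ℕ := Finsupp.equivFunOnFinite.trans (finTwoArrowEquiv ℕ)

theorem ep_symm_zero (p : ℕ × ℕ) : (ep.symm p) 0 = p.1 := by
  simp [ep, finTwoArrowEquiv]
theorem ep_symm_one (p : ℕ × ℕ) : (ep.symm p) 1 = p.2 := by
  simp [ep, finTwoArrowEquiv]

theorem aevalA (z : Fin 2 → ℂ) : MvPolynomial.aeval z (PA ℝ) = PP (z 0) := by
  unfold PA PP
  simp
  ring

theorem aevalB (z : Fin 2 → ℂ) : MvPolynomial.aeval z (PB ℝ) = QQ (z 0) (z 1) := by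
  unfold PB QQ
  simp

theorem constB : MvPolynomial.constantCoeff (PB ℝ) ≠ 0 := by
  unfold PB
  simp

/-- uniqueness of power series coefficients -/
theorem coeff_unique {d e : ℕ → ℂ} {f : ℂ → ℂ}
    (hd : ∀ w : ℂ, ‖w‖ < 1 → HasSum (fun k => d k * w ^ k) (f w))
    (he : ∀ w : ℂ, ‖w‖ < 1 → HasSum (fun k => e k * w ^ k) (f w)) (k : ℕ) : d k = e k := by
  have h : HasFPowerSeriesAt (0 : ℂ → ℂ) (FormalMultilinearSeries.ofScalars ℂ (fun k => d k - e k)) 0 := by
    rw [hasFPowerSeriesAt_iff]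
    filter_upwards [Metric.ball_mem_nhds (0 : ℂ) one_pos] with w hw
    have hw1 : ‖w‖ < 1 := by simpa using hw
    have h1 := (hd w hw1).sub (he w hw1)
    rw [sub_self] at h1
    have hfun : (fun n => w ^ n • (FormalMultilinearSeries.ofScalars ℂ (fun k => d k - e k)).coeff n)
        = fun k => d k * w ^ k - e k * w ^ k := by
      funext n
      rw [FormalMultilinearSeries.coeff_ofScalars, smul_eq_mul]
      ring
    rw [hfun]
    simpa using h1
  have h2 := h.eq_zero
  have h3 := congrArg (fun p => FormalMultilinearSeries.coeff p k) h2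
  simp only [FormalMultilinearSeries.coeff_ofScalars] at h3
  have h4 : FormalMultilinearSeries.coeff (0 : FormalMultilinearSeries ℂ ℂ ℂ) k = 0 := by
    simp [FormalMultilinearSeries.coeff]
  rw [h4] at h3
  exact sub_eq_zero.1 h3

theorem formal_not_summable :
    ¬ Summable (fun k : Fin 2 →₀ ℕ =>
          |MvPowerSeries.coeff k
            ((PA ℝ : MvPowerSeries (Fin 2) ℝ) * (PB ℝ : MvPowerSeries (Fin 2) ℝ)⁻¹)|) := by
  intro hs
  set H : MvPowerSeries (Fin 2) ℝ :=
    (PA ℝ : MvPowerSeries (Fin 2) ℝ) * (PB ℝ : MvPowerSeries (Fin 2) ℝ)⁻¹ with hH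
  have hHQ : H * (PB ℝ : MvPowerSeries (Fin 2) ℝ) = 1 * (PA ℝ : MvPowerSeries (Fin 2) ℝ) := by
    rw [hH, mul_assoc, MvPowerSeries.inv_mul_cancel, mul_one, one_mul]
    rw [← MvPowerSeries.coeff_zero_eq_constantCoeff_apply, MvPolynomial.coeff_coe]
    exact constB
  -- evaluation
  have hev : ∀ z : Fin 2 → ℂ, (∀ i, ‖z i‖ ≤ 1) → ∃ S, HasEval H z S ∧ S * QQ (z 0) (z 1) = PP (z 0) := by
    intro z hz
    have hsum : Summable (fun k : Fin 2 →₀ ℕ =>
        ((MvPowerSeries.coeff k H : ℝ) : ℂ) * ∏ i, z i ^ k i) := by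
      apply Summable.of_norm_bounded hs
      intro k
      rw [norm_mul, Complex.norm_real, Real.norm_eq_abs, norm_prod]
      have : ∏ i, ‖z i ^ k i‖ ≤ 1 := by
        apply Finset.prod_le_one
        · intro i _; exact norm_nonneg _
        · intro i _; rw [norm_pow]; exact pow_le_one₀ (norm_nonneg _) (hz i)
      calc _ ≤ |MvPowerSeries.coeff k H| * 1 := by gcongr
        _ = _ := mul_one _
    obtain ⟨S, hS⟩ := hsum
    refine ⟨S, hS, ?_⟩
    have h1 := HasEval.mulPoly (PB ℝ) (f := H) (z := z) hS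
    have h2 := HasEval.mulPoly (PA ℝ) (hasEval_one z)
    rw [hHQ] at h1
    have h3 := HasSum.unique h1 h2
    rw [aevalA, aevalB, one_mul] at h3
    exact h3
  -- double sequence
  set a : ℕ → ℕ → ℂ := fun n k => ((MvPowerSeries.coeff (ep.symm (n, k)) H : ℝ) : ℂ) with ha
  have has : Summable (fun p : ℕ × ℕ => ‖a p.1 p.2‖) := by
    have := ep.symm.summable_iff.2 hs
    refine this.congr ?_
    intro p
    simp only [Function.comp, ha, Complex.norm_real, Real.norm_eq_abs]
  have haev : ∀ z w : ℂ, ‖z‖ ≤ 1 → ‖w‖ ≤ 1 → ∃ S,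
      HasSum (fun p : ℕ × ℕ => a p.1 p.2 * z ^ p.1 * w ^ p.2) S ∧ S * QQ z w = PP z := by
    intro z w hz hw
    obtain ⟨S, hS, hS2⟩ := hev ![z, w] (by intro i; fin_cases i <;> simp [hz, hw])
    refine ⟨S, ?_, by simpa using hS2⟩
    have := ep.symm.hasSum_iff.2 hS
    refine this.congr_fun ?_ |> fun h => h
    intro p
    simp only [Function.comp, ha, Fin.prod_univ_two, ep_symm_zero, ep_symm_one]
    simp
    ring
  have has' : Summable fun p : ℕ × ℕ => ‖a p.2 p.1‖ := has.prod_symm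
  have hk : ∀ k, Summable fun n => ‖a n k‖ := fun k => has'.prod_factor k
  apply main a has
  intro k t
  have hz : ‖ee t‖ = 1 := ee_norm t
  have hG : ∀ k, HasSum (fun n => a n k * (ee t) ^ n) (∑' n, a n k * (ee t) ^ n) := by
    intro k
    apply Summable.hasSum
    apply Summable.of_norm_bounded (hk k)
    intro n
    rw [norm_mul, norm_pow, hz]; simp
  have hd : ∀ w : ℂ, ‖w‖ < 1 →
      HasSum (fun k => (∑' n, a n k * (ee t) ^ n) * w ^ k) (PP (ee t) / QQ (ee t) w) := by
    intro w hw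
    obtain ⟨S, hS, hS2⟩ := haev (ee t) w hz.le hw.le
    have hQ : QQ (ee t) w ≠ 0 := by
      intro h0
      have := (QQ_zero hz.le hw.le h0).2
      rw [this] at hw
      simp at hw
    have hS3 : S = PP (ee t) / QQ (ee t) w := by
      rw [eq_div_iff hQ]; exact hS2
    rw [← hS3]
    have hS' : HasSum (fun p : ℕ × ℕ => a p.2 p.1 * (ee t) ^ p.2 * w ^ p.1) S :=
      (Equiv.prodComm ℕ ℕ).hasSum_iff.2 hS
    exact hS'.prod_fiberwise fun k => (hG k).mul_right (w ^ k)
  have he : ∀ w : ℂ, ‖w‖ < 1 →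
      HasSum (fun k => FF k (ee t) * w ^ k) (PP (ee t) / QQ (ee t) w) :=
    fun w hw => FF_geom hz.le hw
  have := coeff_unique hd he k
  rw [← this]
  exact hG k

end Pool.Agent.Helper646.Bibo
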